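import Mathlib
import Pool.Agent.Y90.S.Jobs
import Pool.Agent.Y4.G.Loc

/-!
# Rank one elements: coprime signature
-/

set_option linter.unusedSectionVars false

namespace Pool.Agent.Y162.S4

open Matrix Module Pool.Agent.W437.HC Pool.Agent.W548.Odd
open Pool.Agent.Y90 (LZ IrS Stab pd qd eig Rk1 PM up_mem up_l up_r DZ_mem img_eq)
open Pool.Agent.Y4.G (hermZ' Lie lr lr_apply trace_idemM sa_conj)
open Pool.Agent.W437.HD (DZ_sq DZ_Om)

section gen

variable {B : Type*} [Fintype B] [DecidableEq B] {D : Set (Matrix B B ℂ)} {Om S Si : Matrix B B ℂ}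

theorem exists_compl' (H : Herm D Om S Si) (M : Submodule ℂ (B → ℂ))
    (hM : ∀ X ∈ LA D, ∀ w ∈ M, X *ᵥ w ∈ M) :
    ∃ N : Submodule ℂ (B → ℂ), IsCompl M N ∧ (∀ X ∈ LA D, ∀ w ∈ N, X *ᵥ w ∈ N) ∧
      ∀ m ∈ M, ∀ w ∈ N, (S *ᵥ w) ⬝ᵥ star (S *ᵥ m) = 0 := by
  let TL : (B → ℂ) →ₗ[ℂ] EuclideanSpace ℂ B :=
    ((WithLp.linearEquiv 2 ℂ (B → ℂ)).symm : (B → ℂ) →ₗ[ℂ] EuclideanSpace ℂ B).comp
      (mulVecLin S)
  have hTL : ∀ w, TL w = WithLp.toLp 2 (S *ᵥ w) := fun w => rfl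
  have hinj : ∀ w, TL w = 0 → w = 0 := by
    intro w hw
    rw [hTL] at hw
    have h1 : S *ᵥ w = 0 := congrArg (WithLp.ofLp) hw
    rw [← one_mulVec w, ← H.SiS, ← mulVec_mulVec, h1, mulVec_zero]
  have hinner : ∀ m w, inner ℂ (TL m) (TL w) = (S *ᵥ w) ⬝ᵥ star (S *ᵥ m) := fun m w =>
    H.inner_eq m w
  have hc : IsCompl (M.map TL) (M.map TL)ᗮ := Submodule.isCompl_orthogonal _
  refine ⟨(M.map TL)ᗮ.comap TL, ⟨?_, ?_⟩, ?_, ?_⟩
  · rw [Submodule.disjoint_def]
    intro x hx hx'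
    exact hinj x (Submodule.disjoint_def.1 hc.disjoint _ ⟨x, hx, rfl⟩ hx')
  · rw [codisjoint_iff, Submodule.eq_top_iff']
    intro v
    have h1 : TL v ∈ M.map TL ⊔ (M.map TL)ᗮ := by
      rw [codisjoint_iff.1 hc.codisjoint]
      trivial
    obtain ⟨_, ⟨m, hm, rfl⟩, b, hb, hab⟩ := Submodule.mem_sup.1 h1
    rw [Submodule.mem_sup]
    refine ⟨m, hm, v - m, ?_, by abel⟩
    change TL (v - m) ∈ (M.map TL)ᗮ
    rw [map_sub, ← hab, add_sub_cancel_left]
    exact hb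
  · intro X hX w hw
    change TL (X *ᵥ w) ∈ (M.map TL)ᗮ
    rw [Submodule.mem_orthogonal]
    rintro _ ⟨m, hm, rfl⟩
    rw [hinner, H.inner_adj, ← hinner]
    have h1 : TL w ∈ (M.map TL)ᗮ := hw
    rw [Submodule.mem_orthogonal] at h1
    exact h1 _ ⟨_, hM _ (H.adj X hX) m hm, rfl⟩
  · intro m hm w hw
    rw [← hinner]
    have h1 : TL w ∈ (M.map TL)ᗮ := hw
    rw [Submodule.mem_orthogonal] at h1
    exact h1 _ ⟨m, hm, rfl⟩

theorem exists_proj (H : Herm D Om S Si) (M : Submodule ℂ (B → ℂ))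
    (hM : ∀ X ∈ LA D, ∀ w ∈ M, X *ᵥ w ∈ M) :
    ∃ e : Matrix B B ℂ, e * e = e ∧ (∀ v, e *ᵥ v ∈ M) ∧ (∀ w ∈ M, e *ᵥ w = w) ∧
      (∀ X ∈ LA D, X * e = e * X) ∧ (S * e * Si)ᴴ = S * e * Si := by
  obtain ⟨N, hc, hN, horth⟩ := exists_compl' H M hM
  have hz : ∀ w ∈ N, M.projection N hc w = 0 :=
    fun w hw => (Submodule.projection_apply_eq_zero_iff hc).2 hw
  have hm : ∀ w, M.projection N hc w ∈ M := fun w => Submodule.projection_apply_mem hc w
  have hid : ∀ w ∈ M, M.projection N hc w = w :=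
    fun w hw => Submodule.projection_apply_of_mem_left hc hw
  obtain ⟨p, hp⟩ : ∃ p : Matrix B B ℂ, ∀ w, p *ᵥ w = M.projection N hc w :=
    ⟨LinearMap.toMatrix' (M.projection N hc), fun w => LinearMap.toMatrix'_mulVec _ _⟩
  have hext : ∀ X Y : Matrix B B ℂ, (∀ v, X *ᵥ v = Y *ᵥ v) → X = Y := by
    intro X Y h0
    ext i j
    have h5 := congrFun (h0 (Pi.single j 1)) i
    rwa [mulVec_single_one, mulVec_single_one] at h5
  have hsub : ∀ v, v - p *ᵥ v ∈ N := by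
    intro v
    rw [hp, ← Submodule.projection_apply_eq_zero_iff hc, map_sub, hid _ (hm v), sub_self]
  refine ⟨p, ?_, ?_, ?_, ?_, ?_⟩
  · apply hext
    intro v
    rw [← mulVec_mulVec, hp v, hp, hid _ (hm v)]
  · intro v
    rw [hp]
    exact hm v
  · intro w hw
    rw [hp]
    exact hid w hw
  · intro X hX
    apply hext
    intro v
    rw [← mulVec_mulVec, ← mulVec_mulVec]
    have h2 : X *ᵥ v = X *ᵥ (p *ᵥ v) + X *ᵥ (v - p *ᵥ v) := by
      rw [← mulVec_add, add_sub_cancel]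
    have h3 : X *ᵥ (p *ᵥ v) ∈ M := by
      rw [hp]
      exact hM X hX _ (hm v)
    have h4 : p *ᵥ (X *ᵥ (v - p *ᵥ v)) = 0 := by
      rw [hp]
      exact hz _ (hN X hX _ (hsub v))
    have h5 : p *ᵥ (X *ᵥ (p *ᵥ v)) = X *ᵥ (p *ᵥ v) := by
      rw [hp]
      exact hid _ h3
    rw [h2, mulVec_add, h4, add_zero, h5]
  · -- self-adjointness
    have key : ∀ u v : B → ℂ, (S *ᵥ (p *ᵥ u)) ⬝ᵥ star (S *ᵥ v) =
        (S *ᵥ u) ⬝ᵥ star (S *ᵥ (p *ᵥ v)) := by
      intro u v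
      have hu : p *ᵥ u ∈ M := by rw [hp]; exact hm u
      have hv : p *ᵥ v ∈ M := by rw [hp]; exact hm v
      have e1 : (S *ᵥ (p *ᵥ u)) ⬝ᵥ star (S *ᵥ v) =
          (S *ᵥ (p *ᵥ u)) ⬝ᵥ star (S *ᵥ (p *ᵥ v)) := by
        have h1 := horth _ hu _ (hsub v)
        have h2 : (S *ᵥ (p *ᵥ u)) ⬝ᵥ star (S *ᵥ (v - p *ᵥ v)) = 0 := by
          have h3 := congrArg star h1
          rw [star_zero, ← Matrix.star_dotProduct_star, star_star] at h3
          exact h3
        rw [mulVec_sub, star_sub, dotProduct_sub, sub_eq_zero] at h2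
        exact h2
      have e2 : (S *ᵥ u) ⬝ᵥ star (S *ᵥ (p *ᵥ v)) =
          (S *ᵥ (p *ᵥ u)) ⬝ᵥ star (S *ᵥ (p *ᵥ v)) := by
        have h1 := horth _ hv _ (hsub u)
        rw [mulVec_sub, sub_dotProduct, sub_eq_zero] at h1
        exact h1
      rw [e1, e2]
    have key2 : ∀ u v : B → ℂ, ((S * p * Si) *ᵥ u) ⬝ᵥ star v =
        u ⬝ᵥ star ((S * p * Si) *ᵥ v) := by
      intro u v
      have h1 := key (Si *ᵥ u) (Si *ᵥ v)
      have h2 : ∀ w : B → ℂ, S *ᵥ (Si *ᵥ w) = w := fun w => by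
        rw [mulVec_mulVec, H.SSi, one_mulVec]
      rw [h2, h2] at h1
      rw [← mulVec_mulVec, ← mulVec_mulVec, ← mulVec_mulVec, ← mulVec_mulVec]
      exact h1
    ext i j
    rw [conjTranspose_apply]
    have h1 := key2 (Pi.single i 1) (Pi.single j 1)
    rw [mulVec_single_one, mulVec_single_one] at h1
    have h2 : star (Pi.single j (1:ℂ) : B → ℂ) = Pi.single j 1 := by
      rw [Pi.star_single, star_one]
    rw [h2, dotProduct_single, mul_one, single_dotProduct, one_mul] at h1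
    have h3 : (S * p * Si) j i = star ((S * p * Si) i j) := h1
    rw [h3, star_star]

end gen

variable {g : ℕ} {Z : Matrix (Fin g) (Fin g) ℂ}

/-- The complex structure is self-adjoint. -/
theorem D_sa' (h : PM Z) {S Si : Matrix (Fin g ⊕ Fin g) (Fin g ⊕ Fin g) ℂ} (hSSi : S * Si = 1)
    (hR : Sᴴ * S = Om g ℂ * cm (JR Z)) : (S * DZ Z * Si)ᴴ = S * DZ Z * Si := by
  apply sa_conj hSSi hR
  have h1 : (DZ Z)ᴴ = -(DZ Z)ᵀ := by
    have h2 := Pool.Agent.W437.HD.DZ_conj Z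
    have h3 : (DZ Z)ᴴ = ((DZ Z).map (starRingEnd ℂ))ᵀ := rfl
    rw [h3, h2, transpose_neg]
  have hJD : cm (JR Z) = Complex.I • DZ Z := by
    change _ = Complex.I • ((-Complex.I) • cm (JR Z))
    rw [smul_smul, show Complex.I * -Complex.I = 1 by simp, one_smul]
  rw [h1, neg_mul, ← mul_assoc, DZ_Om h.symm, neg_mul, neg_neg, mul_assoc, mul_assoc, hJD,
    Matrix.smul_mul, Matrix.mul_smul]

/-- `JCop`. -/
theorem cop : Pool.Agent.Y90.S.JCop := by
  intro g Z h W hW hp hq hc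
  obtain ⟨S, Si, H, hR⟩ := hermZ' h.isPer (Set.mem_singleton Z)
  rw [← img_eq] at H
  have hSSi := H.SSi
  have hSiS := H.SiS
  obtain ⟨e, hee, he1, he2, hce, hsa⟩ := exists_proj H W (fun X hX w hw => hW.2.1 X hX w hw)
  have hD : DZ Z ∈ LA {DZ Z} := DZ_mem
  have hDD : DZ Z * DZ Z = 1 := DZ_sq h.det
  have hDe : DZ Z * e = e * DZ Z := hce _ hD
  have hDsa := D_sa' h hSSi hR
  have hcj : ∀ X Y : Matrix (Fin g ⊕ Fin g) (Fin g ⊕ Fin g) ℂ,
      (S * X * Si) * (S * Y * Si) = S * (X * Y) * Si := by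
    intro X Y
    calc (S * X * Si) * (S * Y * Si) = S * X * (Si * S) * Y * Si := by noncomm_ring
    _ = _ := by rw [hSiS]; noncomm_ring
  have hlr : ∀ X, lr S (e * Si) X = S * (X * e) * Si := by
    intro X
    rw [lr_apply]
    noncomm_ring
  set p : Matrix (Fin g ⊕ Fin g) (Fin g ⊕ Fin g) ℂ := (1 / 2 : ℂ) • ((1 + DZ Z) * e) with hpdef
  set q : Matrix (Fin g ⊕ Fin g) (Fin g ⊕ Fin g) ℂ := (1 / 2 : ℂ) • ((1 - DZ Z) * e) with hqdef
  have hDee : e * (DZ Z * e) = DZ Z * e := by rw [hDe, ← mul_assoc, hee]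
  have hDeDe : (DZ Z * e) * (DZ Z * e) = e := by
    calc (DZ Z * e) * (DZ Z * e) = DZ Z * (e * (DZ Z * e)) := by noncomm_ring
    _ = (DZ Z * DZ Z) * e := by rw [hDee]; noncomm_ring
    _ = e := by rw [hDD, one_mul]
  have hDeE : (DZ Z * e) * e = DZ Z * e := by rw [mul_assoc, hee]
  have hp' : p = (1 / 2 : ℂ) • (e + DZ Z * e) := by rw [hpdef, add_mul, one_mul]
  have hq' : q = (1 / 2 : ℂ) • (e - DZ Z * e) := by rw [hqdef, sub_mul, one_mul]
  have hpp : p * p = p := by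
    rw [hp', smul_mul_smul_comm, add_mul, mul_add, mul_add, hee, hDee, hDeE, hDeDe]
    module
  have hqq : q * q = q := by
    rw [hq', smul_mul_smul_comm, sub_mul, mul_sub, mul_sub, hee, hDee, hDeE, hDeDe]
    module
  have hpq : p * q = 0 := by
    rw [hp', hq', smul_mul_smul_comm, add_mul, mul_sub, mul_sub, hee, hDee, hDeE, hDeDe]
    module
  have hqp : q * p = 0 := by
    rw [hp', hq', smul_mul_smul_comm, sub_mul, mul_add, mul_add, hee, hDee, hDeE, hDeDe]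
    module
  have hadd : p + q = e := by rw [hp', hq']; module
  have hsub : p - q = DZ Z * e := by rw [hp', hq']; module
  have hadd' : S * p * Si + S * q * Si = S * e * Si := by
    rw [← hadd]; noncomm_ring
  have hsaDe : (S * (DZ Z * e) * Si)ᴴ = S * (DZ Z * e) * Si := by
    rw [← hcj, conjTranspose_mul, hsa, hDsa, hcj, hcj, hDe]
  have hsp : S * p * Si = (1 / 2 : ℂ) • (S * e * Si + S * (DZ Z * e) * Si) := by
    rw [hp', Matrix.mul_smul, Matrix.smul_mul]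
    congr 1
    noncomm_ring
  have hsq : S * q * Si = (1 / 2 : ℂ) • (S * e * Si - S * (DZ Z * e) * Si) := by
    rw [hq', Matrix.mul_smul, Matrix.smul_mul]
    congr 1
    noncomm_ring
  have h12 : star (1 / 2 : ℂ) = 1 / 2 := by simp
  have mem_p : ∀ v, p *ᵥ v ∈ W ⊓ eig Z 1 := by
    intro v
    refine ⟨?_, ?_⟩
    · rw [hp', smul_mulVec, add_mulVec, ← mulVec_mulVec]
      exact W.smul_mem _ (W.add_mem (he1 v) (hW.2.1 _ hD _ (he1 v)))
    · change DZ Z *ᵥ (p *ᵥ v) = (1:ℂ) • (p *ᵥ v)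
      rw [mulVec_mulVec, one_smul, hpdef, Matrix.mul_smul, ← mul_assoc, mul_add, mul_one, hDD,
        add_comm (DZ Z)]
  have mem_q : ∀ v, q *ᵥ v ∈ W ⊓ eig Z (-1) := by
    intro v
    refine ⟨?_, ?_⟩
    · rw [hq', smul_mulVec, sub_mulVec, ← mulVec_mulVec]
      exact W.smul_mem _ (W.sub_mem (he1 v) (hW.2.1 _ hD _ (he1 v)))
    · change DZ Z *ᵥ (q *ᵥ v) = (-1:ℂ) • (q *ᵥ v)
      rw [mulVec_mulVec, neg_one_smul, ← neg_mulVec]
      congr 1
      rw [hqdef, Matrix.mul_smul, ← mul_assoc, mul_sub, mul_one, hDD, ← smul_neg, ← neg_mul,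
        neg_sub]
  have id_p : ∀ v ∈ W ⊓ eig Z 1, p *ᵥ v = v := by
    rintro v ⟨h1, h2⟩
    have h3 : DZ Z *ᵥ v = (1:ℂ) • v := h2
    rw [hp', smul_mulVec, add_mulVec, ← mulVec_mulVec, he2 v h1, h3]
    module
  have id_q : ∀ v ∈ W ⊓ eig Z (-1), q *ᵥ v = v := by
    rintro v ⟨h1, h2⟩
    have h3 : DZ Z *ᵥ v = (-1:ℂ) • v := h2
    rw [hq', smul_mulVec, sub_mulVec, ← mulVec_mulVec, he2 v h1, h3]
    module
  have tr_p : trace p = (pd Z W : ℂ) := by
    rw [trace_idemM hpp]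
    have : LinearMap.range (mulVecLin p) = W ⊓ eig Z 1 := by
      ext v
      constructor
      · rintro ⟨w, rfl⟩
        exact mem_p w
      · intro hv
        exact ⟨v, id_p v hv⟩
    rw [this]
    rfl
  have tr_q : trace q = (qd Z W : ℂ) := by
    rw [trace_idemM hqq]
    have : LinearMap.range (mulVecLin q) = W ⊓ eig Z (-1) := by
      ext v
      constructor
      · rintro ⟨w, rfl⟩
        exact mem_q w
      · intro hv
        exact ⟨v, id_q v hv⟩
    rw [this]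
    rfl
  have HL : Lie ((LA {DZ Z}).map (lr S (e * Si))) (S * p * Si) (S * q * Si)
      (pd Z W) (qd Z W) := {
    br := by
      rintro _ ⟨X, hX, rfl⟩ _ ⟨Y, hY, rfl⟩
      refine ⟨X * Y - Y * X, LA_br hX hY, ?_⟩
      rw [hlr, hlr, hlr, hcj, hcj]
      have h1 : X * e * (Y * e) = X * Y * e := by
        rw [mul_assoc, ← mul_assoc e, ← hce Y hY, mul_assoc Y, hee, mul_assoc]
      have h2 : Y * e * (X * e) = Y * X * e := by
        rw [mul_assoc, ← mul_assoc e, ← hce X hX, mul_assoc X, hee, mul_assoc]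
      rw [h1, h2]
      noncomm_ring
    ad := by
      rintro _ ⟨X, hX, rfl⟩
      refine ⟨Si * Siᴴ * Xᴴ * (Sᴴ * S), H.adj X hX, ?_⟩
      have hX' := H.adj X hX
      rw [hlr, hlr, hce _ hX']
      have h2 : S * (Si * Siᴴ * Xᴴ * (Sᴴ * S)) * Si = (S * X * Si)ᴴ := by
        rw [conjTranspose_mul, conjTranspose_mul]
        calc S * (Si * Siᴴ * Xᴴ * (Sᴴ * S)) * Si = (S * Si) * Siᴴ * Xᴴ * Sᴴ * (S * Si) := by
              noncomm_ring
        _ = _ := by rw [hSSi]; noncomm_ring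
      rw [← hcj, h2, ← hsa, ← conjTranspose_mul, hcj]
    PP := by rw [hcj, hpp]
    QQ := by rw [hcj, hqq]
    PH := by rw [hsp, conjTranspose_smul, h12, conjTranspose_add, hsa, hsaDe]
    QH := by rw [hsq, conjTranspose_smul, h12, conjTranspose_sub, hsa, hsaDe]
    PQ := by rw [hcj, hpq, mul_zero, zero_mul]
    QP := by rw [hcj, hqp, mul_zero, zero_mul]
    D := by
      refine ⟨DZ Z, hD, ?_⟩
      rw [hlr, ← hsub]
      noncomm_ring
    lel := by
      rintro _ ⟨X, hX, rfl⟩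
      have h1 : e * (X * e) = X * e := by
        rw [← mul_assoc, ← hce X hX, mul_assoc, hee]
      rw [hadd', hlr, hcj, h1]
    ler := by
      rintro _ ⟨X, hX, rfl⟩
      rw [hadd', hlr, hcj, mul_assoc X, hee]
    irr := by
      intro U hU hs
      rw [hadd'] at hU ⊢
      have hcv : ∀ u, S *ᵥ (Si *ᵥ u) = u := fun u => by rw [mulVec_mulVec, hSSi, one_mulVec]
      have hcv' : ∀ u, Si *ᵥ (S *ᵥ u) = u := fun u => by rw [mulVec_mulVec, hSiS, one_mulVec]
      have hU1 : ∀ u ∈ U, e *ᵥ (Si *ᵥ u) = Si *ᵥ u := by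
        intro u hu
        have h1 := congrArg (fun z => Si *ᵥ z) (hU u hu)
        simp only [mulVec_mulVec] at h1
        have h2 : Si * (S * e * Si) = e * Si := by
          rw [← mul_assoc, ← mul_assoc, hSiS, one_mul]
        rw [h2, ← mulVec_mulVec] at h1
        exact h1
      rcases hW.2.2 (U.comap (mulVecLin S)) (by
        intro u hu
        have h1 := hU1 _ (Submodule.mem_comap.1 hu)
        rw [mulVecLin_apply, hcv'] at h1
        rw [← h1]
        exact he1 u) (by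
        intro X hX u hu
        rw [Submodule.mem_comap, mulVecLin_apply] at hu ⊢
        have h1 := hs _ ⟨X, hX, rfl⟩ _ hu
        rw [hlr] at h1
        have h2 : (S * (X * e) * Si) *ᵥ (S *ᵥ u) = S *ᵥ (X *ᵥ (e *ᵥ u)) := by
          rw [mulVec_mulVec, mulVec_mulVec, mulVec_mulVec, mul_assoc (S * (X * e)), hSiS,
            mul_one, mul_assoc S X]
        have h3 := hU1 _ hu
        rw [hcv'] at h3
        rw [h2, h3] at h1
        exact h1) with h1 | h1
      · left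
        rw [Submodule.eq_bot_iff] at h1 ⊢
        intro u hu
        have h2 := h1 (Si *ᵥ u) (by
          rw [Submodule.mem_comap, mulVecLin_apply, hcv]
          exact hu)
        rw [← hcv u, h2, mulVec_zero]
      · right
        intro u hu
        have h2 := congrArg (fun z => Si *ᵥ z) hu
        simp only [mulVec_mulVec] at h2
        have h3 : Si * (S * e * Si) = e * Si := by
          rw [← mul_assoc, ← mul_assoc, hSiS, one_mul]
        rw [h3, ← mulVec_mulVec] at h2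
        have h4 : Si *ᵥ u ∈ W := by rw [← h2]; exact he1 _
        rw [← h1, Submodule.mem_comap, mulVecLin_apply, hcv] at h4
        exact h4
    trP := by rw [trace_mul_comm, ← mul_assoc, hSiS, one_mul, tr_p]
    trQ := by rw [trace_mul_comm, ← mul_assoc, hSiS, one_mul, tr_q] }
  -- vectors in the eigenspaces
  obtain ⟨u, hu, hu0⟩ : ∃ u ∈ W ⊓ eig Z 1, u ≠ 0 := by
    have h1 : W ⊓ eig Z 1 ≠ ⊥ := by
      intro h0
      unfold pd at hp
      rw [h0, finrank_bot] at hp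
      exact lt_irrefl _ hp
    exact (Submodule.ne_bot_iff _).1 h1
  obtain ⟨v, hv, hv0⟩ : ∃ v ∈ W ⊓ eig Z (-1), v ≠ 0 := by
    have h1 : W ⊓ eig Z (-1) ≠ ⊥ := by
      intro h0
      unfold qd at hq
      rw [h0, finrank_bot] at hq
      exact lt_irrefl _ hq
    exact (Submodule.ne_bot_iff _).1 h1
  obtain ⟨i, hi⟩ : ∃ i, v i ≠ 0 := by
    by_contra hcon
    push Not at hcon
    exact hv0 (funext hcon)
  let Y : Matrix (Fin g ⊕ Fin g) (Fin g ⊕ Fin g) ℂ := vecMulVec u (Pi.single i 1)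
  have hY : ∀ w, Y *ᵥ w = w i • u := by
    intro w
    simp only [Y]
    rw [vecMulVec_mulVec]
    simp
  obtain ⟨X, hX, h3⟩ := HL.full hp hq hc (S * Y * Si)
  have hXe : X * e = p * Y * q := by
    have h4 : S * (X * e) * Si = S * (p * Y * q) * Si := by
      rw [← hlr]
      refine h3.trans ?_
      calc S * p * Si * (S * Y * Si) * (S * q * Si) =
          S * p * (Si * S) * Y * (Si * S) * q * Si := by noncomm_ring
      _ = _ := by rw [hSiS]; noncomm_ring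
    have h5 := congrArg (fun W => Si * W * S) h4
    have h6 : ∀ W : Matrix (Fin g ⊕ Fin g) (Fin g ⊕ Fin g) ℂ, Si * (S * W * Si) * S = W := by
      intro W
      calc Si * (S * W * Si) * S = (Si * S) * W * (Si * S) := by noncomm_ring
      _ = W := by rw [hSiS, one_mul, mul_one]
    simp only [h6] at h5
    exact h5
  have hXw : ∀ w ∈ W, X *ᵥ w = ((q *ᵥ w) i) • u := by
    intro w hw
    have h4 : X *ᵥ w = (X * e) *ᵥ w := by rw [← mulVec_mulVec, he2 w hw]
    rw [h4, hXe, ← mulVec_mulVec, ← mulVec_mulVec, hY, mulVec_smul, id_p u hu]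
  refine ⟨DZ Z, Or.inl rfl, (1 / 4 : ℂ) • ((1 + DZ Z) * X * (1 - DZ Z)), up_mem h hX,
    up_l h X, up_r h X, ?_⟩
  have hDu : DZ Z *ᵥ u = u := by
    have : DZ Z *ᵥ u = (1:ℂ) • u := hu.2
    rwa [one_smul] at this
  have hN : ∀ w ∈ W, ((1 / 4 : ℂ) • ((1 + DZ Z) * X * (1 - DZ Z))) *ᵥ w =
      ((1 / 2 : ℂ) * (q *ᵥ ((1 - DZ Z) *ᵥ w)) i) • u := by
    intro w hw
    have hw2 : (1 - DZ Z) *ᵥ w ∈ W := by
      rw [sub_mulVec, one_mulVec]
      exact W.sub_mem hw (hW.2.1 _ hD w hw)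
    rw [smul_mulVec, ← mulVec_mulVec, ← mulVec_mulVec, hXw _ hw2, mulVec_smul, add_mulVec,
      one_mulVec, hDu]
    module
  have hrange : W.map (mulVecLin ((1 / 4 : ℂ) • ((1 + DZ Z) * X * (1 - DZ Z)))) =
      Submodule.span ℂ {u} := by
    apply le_antisymm
    · rintro _ ⟨w, hw, rfl⟩
      rw [mulVecLin_apply, hN w hw]
      exact Submodule.smul_mem _ _ (Submodule.mem_span_singleton_self u)
    · rw [Submodule.span_singleton_le_iff_mem]
      have hvv := hN v hv.1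
      have h5 : (1 - DZ Z) *ᵥ v = (2:ℂ) • v := by
        have h6 : DZ Z *ᵥ v = (-1:ℂ) • v := hv.2
        rw [sub_mulVec, one_mulVec, h6]
        module
      rw [h5, mulVec_smul, id_q v hv, Pi.smul_apply, smul_eq_mul] at hvv
      have h7 : (1 / 2 : ℂ) * (2 * v i) = v i := by ring
      rw [h7] at hvv
      refine ⟨(v i)⁻¹ • v, W.smul_mem _ hv.1, ?_⟩
      rw [map_smul, mulVecLin_apply, hvv, smul_smul, inv_mul_cancel₀ hi, one_smul]
  rw [hrange]
  exact finrank_span_singleton hu0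

end Pool.Agent.Y162.S4
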